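import Pool.Agent.Helper30.EL.St

/-!
# Project EL, module CQE : the combination of the box sieve with the fundamental lemma and the weights of Richert
-/

set_option autoImplicit false

namespace Pool.Agent.Helper92.EL

open Finset Filter Topology ArithmeticFunction
open Pool.Agent.Helper30.EL
open Pool.Agent.Helper9.TW (gm Qs fm StC9)
open Pool.Agent.Helper18.TR (StBonf StFLmain StLevel)
open Pool.Agent.Helper15.AB (Th StDB StMT)
open Pool.Agent.Helper60.GP (II IsB JJ Err StBVc StPNT StBump StM2)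
open Pool.Agent.Helper48.BK (StSW)
open Pool.Agent.Helper93.KS (bq Pq SW bmq idq ejq mg Gb Vq AD UQ LQ HU HL StBXQ StT1 StDK StCEL StBMQ StSQR StDUA)

private theorem growth (Es c1 : ℝ) (hE : 0 ≤ Es) (hc : 0 < c1) :
    ∀ᶠ a : ℕ in atTop, ∀ x : ℝ, (a : ℝ) ^ (999 / 1000 : ℝ) ≤ x → x ≤ a →
      Es * (x / Real.log x ^ 4) ≤ c1 * x / Real.log a ^ 3 := by
  have h1 : Tendsto (fun a : ℕ => Real.log (a : ℝ)) atTop atTop :=
    Real.tendsto_log_atTop.comp tendsto_natCast_atTop_atTop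
  filter_upwards [h1.eventually_ge_atTop (16 * Es / c1), eventually_ge_atTop 3] with a ha ha3 x hx _
  have ha0 : (0 : ℝ) < a := by
    have : 0 < a := by omega
    exact_mod_cast this
  have hlog : 0 < Real.log a := Real.log_pos (by
    have : 1 < a := by omega
    exact_mod_cast this)
  have hx0 : 0 < x := lt_of_lt_of_le (by positivity) hx
  have hlx : 1 / 2 * Real.log a ≤ Real.log x := by
    have h2 := Real.log_le_log (by positivity) hx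
    rw [Real.log_rpow ha0] at h2
    linarith
  have h4 : (1 / 2 * Real.log a) ^ 4 ≤ Real.log x ^ 4 := by gcongr
  have h5 : 16 * Es ≤ c1 * Real.log a := by
    rw [div_le_iff₀ hc] at ha
    linarith
  have hl0 : 0 < 1 / 2 * Real.log a := by positivity
  calc Es * (x / Real.log x ^ 4) ≤ Es * (x / (1 / 2 * Real.log a) ^ 4) := by gcongr
    _ = 16 * Es * (x / Real.log a ^ 4) := by
        field_simp
        norm_num
    _ ≤ c1 * Real.log a * (x / Real.log a ^ 4) := by gcongr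
    _ = c1 * x / Real.log a ^ 3 := by
        field_simp

private theorem gm_le (i : ℕ) (hi : 1 ≤ i) : gm i ≤ 1 / i := by
  unfold gm
  have h : (0 : ℝ) < i := by exact_mod_cast hi
  have h1 := Real.log_le_sub_one_of_pos (show (0 : ℝ) < ((i : ℝ) + 1) / i by positivity)
  refine h1.trans_eq ?_
  field_simp
  ring

private theorem gm_nonneg (i : ℕ) (hi : 1 ≤ i) : 0 ≤ gm i := by
  unfold gm
  have h : (0 : ℝ) < i := by exact_mod_cast hi
  apply Real.log_nonneg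
  rw [le_div_iff₀ h]
  linarith

private theorem Vq_ge (κ a j0 J : ℕ) (ω η : ℝ) (g : ℕ → ℝ) (hκ : κ ≤ 2) (hj0 : 50 ≤ j0)
    (hη : η ≤ 1 / 2) (h : AD κ a ω η j0 J g) :
    (2 / 5 : ℝ) ^ (Ico j0 J).card ≤ Vq a ω g j0 J := by
  unfold Vq
  rw [← Finset.prod_const]
  refine Finset.prod_le_prod (fun i _ => by norm_num) fun i hi => ?_
  have h1 := h.2 i hi
  have h2 : j0 ≤ i := (Finset.mem_Ico.mp hi).1
  have h3 := gm_le i (by omega)
  have h50 : (50 : ℝ) ≤ i := by exact_mod_cast hj0.trans h2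
  have h4 : (1 : ℝ) / i ≤ 1 / 50 := one_div_le_one_div_of_le (by norm_num) h50
  have h5 : (κ : ℝ) ≤ 2 := by exact_mod_cast hκ
  have h6 : (κ : ℝ) * gm i ≤ 2 * (1 / 50) :=
    mul_le_mul h5 (h3.trans h4) (gm_nonneg i (by omega)) (by norm_num)
  linarith

private theorem AD_mono (κ a j0 J : ℕ) (ω η η' : ℝ) (g : ℕ → ℝ) (h : AD κ a ω η j0 J g)
    (hη : η ≤ η') : AD κ a ω η' j0 J g :=
  ⟨h.1, fun i hi => (h.2 i hi).trans (by linarith)⟩

private theorem eps_ex (s : Finset ℕ) (c k w : ℕ → ℝ) (l0 u0 P : ℝ) (hP : 0 < P)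
    (hPe : P = (1 - l0) - 2 / 1000 * (1 + u0) - 1001 / 1000 * ∑ j ∈ s, c j * (k j * (1 + w j))) :
    ∃ ε : ℝ, 0 < ε ∧ P / 2 ≤ (1 - l0 - ε) - 2 / 1000 * (1 + u0 + ε) -
      1001 / 1000 * ∑ j ∈ s, c j * ((k j + ε) * (1 + w j + ε)) := by
  have hc : Continuous fun ε : ℝ => (1 - l0 - ε) - 2 / 1000 * (1 + u0 + ε) -
      1001 / 1000 * ∑ j ∈ s, c j * ((k j + ε) * (1 + w j + ε)) := by
    fun_prop
  have h0 : (1 - l0 - 0) - 2 / 1000 * (1 + u0 + 0) -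
      1001 / 1000 * ∑ j ∈ s, c j * ((k j + 0) * (1 + w j + 0)) = P := by
    rw [hPe]
    simp
  have h1 := hc.tendsto 0
  rw [h0] at h1
  have h2 := h1.eventually (eventually_ge_nhds (show P / 2 < P by linarith))
  have h3 : ∀ᶠ ε : ℝ in 𝓝[>] 0, P / 2 ≤ (1 - l0 - ε) - 2 / 1000 * (1 + u0 + ε) -
      1001 / 1000 * ∑ j ∈ s, c j * ((k j + ε) * (1 + w j + ε)) :=
    h2.filter_mono nhdsWithin_le_nhds
  obtain ⟨ε, h4, h5⟩ := (h3.and self_mem_nhdsWithin).exists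
  exact ⟨ε, h5, h4⟩

private theorem main_ineq (V W t0 t1 l0 u0 P ε m p : ℝ) (s : Finset ℕ) (c k w G mi : ℕ → ℝ)
    (hV0 : 0 ≤ V) (hW : 0 ≤ W) (T1 : V ≤ t0) (T2 : t0 ≤ (1 + 1 / 1000) * V)
    (T3 : (1 - 1 / 1000) * V ≤ t1) (T4 : t1 ≤ V) (hl : 0 ≤ 1 - l0 - ε) (hu : 0 ≤ 1 + u0 + ε)
    (hc : ∀ i ∈ s, 0 ≤ c i) (hG : ∀ i ∈ s, 0 ≤ G i) (hGk : ∀ i ∈ s, G i ≤ k i + ε)
    (hw : ∀ i ∈ s, 0 ≤ 1 + w i + ε)
    (hP : P / 2 ≤ (1 - l0 - ε) - 2 / 1000 * (1 + u0 + ε) -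
      1001 / 1000 * ∑ j ∈ s, c j * ((k j + ε) * (1 + w j + ε)))
    (lm : (1 - l0 - ε) * W ≤ m) (lp : p ≤ (1 + u0 + ε) * W)
    (li : ∀ i ∈ s, mi i ≤ (1 + w i + ε) * W) :
    V * W * (P / 2) ≤ t0 * m - (t0 - t1) * p - t0 * ∑ i ∈ s, c i * (G i * mi i) := by
  have ht0 : 0 ≤ t0 := hV0.trans T1
  have hd : 0 ≤ t0 - t1 := by linarith
  have hd2 : t0 - t1 ≤ 2 / 1000 * V := by linarith
  have m1 : V * W * (1 - l0 - ε) ≤ t0 * m := by
    calc V * W * (1 - l0 - ε) = V * ((1 - l0 - ε) * W) := by ring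
      _ ≤ t0 * ((1 - l0 - ε) * W) := mul_le_mul_of_nonneg_right T1 (mul_nonneg hl hW)
      _ ≤ t0 * m := mul_le_mul_of_nonneg_left lm ht0
  have m2 : (t0 - t1) * p ≤ V * W * (2 / 1000 * (1 + u0 + ε)) := by
    calc (t0 - t1) * p ≤ (t0 - t1) * ((1 + u0 + ε) * W) := mul_le_mul_of_nonneg_left lp hd
      _ ≤ 2 / 1000 * V * ((1 + u0 + ε) * W) := mul_le_mul_of_nonneg_right hd2 (mul_nonneg hu hW)
      _ = V * W * (2 / 1000 * (1 + u0 + ε)) := by ring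
  have m3 : ∑ i ∈ s, c i * (G i * mi i) ≤
      W * ∑ j ∈ s, c j * ((k j + ε) * (1 + w j + ε)) := by
    rw [Finset.mul_sum]
    refine Finset.sum_le_sum fun i hi => ?_
    have a1 : G i * mi i ≤ G i * ((1 + w i + ε) * W) := mul_le_mul_of_nonneg_left (li i hi) (hG i hi)
    have a2 : G i * ((1 + w i + ε) * W) ≤ (k i + ε) * ((1 + w i + ε) * W) :=
      mul_le_mul_of_nonneg_right (hGk i hi) (mul_nonneg (hw i hi) hW)
    calc c i * (G i * mi i) ≤ c i * ((k i + ε) * ((1 + w i + ε) * W)) :=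
          mul_le_mul_of_nonneg_left (a1.trans a2) (hc i hi)
      _ = W * (c i * ((k i + ε) * (1 + w i + ε))) := by ring
  have hS : 0 ≤ ∑ j ∈ s, c j * ((k j + ε) * (1 + w j + ε)) :=
    Finset.sum_nonneg fun i hi => mul_nonneg (hc i hi)
      (mul_nonneg ((hG i hi).trans (hGk i hi)) (hw i hi))
  have m4 : t0 * ∑ i ∈ s, c i * (G i * mi i) ≤
      V * W * (1001 / 1000 * ∑ j ∈ s, c j * ((k j + ε) * (1 + w j + ε))) := by
    calc t0 * ∑ i ∈ s, c i * (G i * mi i)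
        ≤ t0 * (W * ∑ j ∈ s, c j * ((k j + ε) * (1 + w j + ε))) := mul_le_mul_of_nonneg_left m3 ht0
      _ ≤ (1 + 1 / 1000) * V * (W * ∑ j ∈ s, c j * ((k j + ε) * (1 + w j + ε))) :=
          mul_le_mul_of_nonneg_right T2 (mul_nonneg hW hS)
      _ = V * W * (1001 / 1000 * ∑ j ∈ s, c j * ((k j + ε) * (1 + w j + ε))) := by ring
  have m5 := mul_le_mul_of_nonneg_left hP (mul_nonneg hV0 hW)
  have m6 : V * W * ((1 - l0 - ε) - 2 / 1000 * (1 + u0 + ε) -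
      1001 / 1000 * ∑ j ∈ s, c j * ((k j + ε) * (1 + w j + ε))) = V * W * (1 - l0 - ε) -
      V * W * (2 / 1000 * (1 + u0 + ε)) -
      V * W * (1001 / 1000 * ∑ j ∈ s, c j * ((k j + ε) * (1 + w j + ε))) := by ring
  rw [m6] at m5
  linarith

private theorem combine (K t0 t1 m p A B C N Bm Bp : ℝ) (s : Finset ℕ)
    (c D Gm Bi : ℕ → ℝ) (hc : ∀ i ∈ s, 0 ≤ c i)
    (hA : |A - K * t0 * m| ≤ Bm * N) (hB : |B - K * t1 * p| ≤ Bp * N)
    (hC : |C - K * t0 * p| ≤ Bp * N)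
    (hD : ∀ i ∈ s, |D i - K * t0 * Gm i| ≤ Bi i * N) :
    K * (t0 * m - (t0 - t1) * p - t0 * ∑ i ∈ s, c i * Gm i) -
      (Bm + 2 * Bp + ∑ i ∈ s, c i * Bi i) * N ≤ A + B - C - ∑ i ∈ s, c i * D i := by
  have h1 := (abs_le.mp hA).1
  have h2 := (abs_le.mp hB).1
  have h3 := (abs_le.mp hC).2
  have h4 : ∑ i ∈ s, c i * D i ≤
      K * t0 * ∑ i ∈ s, c i * Gm i + (∑ i ∈ s, c i * Bi i) * N := by
    rw [mul_comm (∑ i ∈ s, c i * Bi i) N, Finset.mul_sum, Finset.mul_sum,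
      ← Finset.sum_add_distrib]
    refine Finset.sum_le_sum fun i hi => ?_
    have h5 := mul_le_mul_of_nonneg_left (abs_le.mp (hD i hi)).2 (hc i hi)
    have e2 : c i * (D i - K * t0 * Gm i) = c i * D i - K * t0 * (c i * Gm i) := by ring
    have e3 : c i * (Bi i * N) = N * (c i * Bi i) := by ring
    rw [e2, e3] at h5
    linarith
  have e4 : K * (t0 * m - (t0 - t1) * p - t0 * ∑ i ∈ s, c i * Gm i) -
      (Bm + 2 * Bp + ∑ i ∈ s, c i * Bi i) * N =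
      (K * t0 * m - Bm * N) + (K * t1 * p - Bp * N) - (K * t0 * p + Bp * N) -
      (K * t0 * ∑ i ∈ s, c i * Gm i + (∑ i ∈ s, c i * Bi i) * N) := by ring
  rw [e4]
  linarith

private theorem vv_pos (n c q : ℕ) (h : Nat.Coprime c (2 * n)) : 1 ≤ vv n c q := by
  have hc : 1 ≤ c := by
    rcases Nat.eq_zero_or_pos c with h0 | h0
    · rw [h0, Nat.coprime_zero_left] at h
      omega
    · exact h0
  unfold vv
  have h2 : 1 ≤ c * (q ^ 2 + q + 1) := Nat.mul_pos hc (by positivity)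
  omega

private theorem gd_nonneg (n c p : ℕ) : 0 ≤ gd n c p := by
  unfold gd
  rcases Nat.eq_zero_or_pos p with h0 | h0
  · subst h0
    simp [rt]
  · have : (1 : ℝ) ≤ p := by exact_mod_cast h0
    exact div_nonneg (Nat.cast_nonneg _) (by linarith)

theorem hCQE (hL : StLVE) (h8 : StC8E) (hV : StVLE) (h9 : StC9) (hB : StBMQ) (hP : StPNT) :
    StCQE := by
  intro z₀ J₀ Lv lam hlam hz₀ hzJ hJL hLv hFS w₀ hw₀ hJJ
  obtain ⟨f, -, h8⟩ := h8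
  obtain ⟨θ₁, hθ₁, hθ₁', hL⟩ := hL w₀ hw₀ f
  obtain ⟨u, j0, hu, hj50, hj0z, hθ, l0, u0, w, hl0, hu0, hw, hLo, hUp, hUj, hpos⟩ :=
    hFS θ₁ hθ₁ hθ₁'
  obtain ⟨c0, hc0, hV⟩ := hV
  obtain ⟨x₀, hx₀⟩ := hP w₀ hw₀ (JJ w₀ / 2) (by positivity)
  have hu' : (0 : ℝ) < u := by exact_mod_cast hu
  have hJ0 : (0 : ℝ) < J₀ := by
    have : 0 < J₀ := by omega
    exact_mod_cast this
  obtain ⟨Bm, Lm, hBm, wm, dm, tm⟩ := hLo
  obtain ⟨Bp, Lp, hBp, wp, dp, tp⟩ := hUp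
  unfold UQ at hUj
  choose! Bj Lj hBj wj dj tj using hUj
  refine ⟨u, j0, hu, hj50, hj0z, ?_⟩
  unfold GN
  set ω : ℝ := 1 / (100 * (u : ℝ)) with hωd
  have hω : 0 < ω := by positivity
  have hωu : (u : ℝ) * ω = 1 / 100 := by
    rw [hωd]
    field_simp
  set θ : ℝ := (j0 : ℝ) * ω with hθd
  have hj0' : (0 : ℝ) < j0 := by
    have : 0 < j0 := by omega
    exact_mod_cast this
  have hθ0 : 0 < θ := by positivity
  have hθ1 : θ ≤ 1 := hθ.trans (hθ₁'.trans (by norm_num))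
  obtain ⟨aL, hTC⟩ := hL θ hθ0 hθ 4
  set s : Finset ℕ := Ico (z₀ * u) (J₀ * u) with hs
  set c : ℕ → ℝ := fun i => lam * (1 - (i : ℝ) / (J₀ * u)) with hc
  have hcn : ∀ i ∈ s, 0 ≤ c i := by
    intro i hi
    have h1 : (i : ℝ) ≤ J₀ * u := by
      have h2 : i ≤ J₀ * u := (Finset.mem_Ico.mp hi).2.le
      exact_mod_cast h2
    have h2 : (i : ℝ) / (J₀ * u) ≤ 1 := by
      rw [div_le_iff₀ (by positivity)]; linarith
    rw [hc]
    simp only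
    have : 0 ≤ 1 - (i : ℝ) / (J₀ * u) := by linarith
    positivity
  -- levels
  have hLvr : (Lv : ℝ) ≤ 48 := by exact_mod_cast hLv
  have hlev : (((Lv * u : ℕ) : ℝ)) * ω = Lv / 100 := by
    push_cast
    rw [mul_assoc, hωu]
    ring
  have hlevj : ∀ i ∈ s, ((Lv * u - (i + 1) : ℕ) : ℝ) * ω + ((i : ℝ) + 1) * ω = Lv / 100 := by
    intro i hi
    have h2 : i + 1 ≤ J₀ * u := (Finset.mem_Ico.mp hi).2
    have h3 : J₀ * u ≤ Lv * u := Nat.mul_le_mul_right _ hJL.le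
    have h4 : i + 1 ≤ Lv * u := by omega
    rw [Nat.cast_sub h4, ← hlev]
    push_cast
    ring
  -- the choice of ε
  set P : ℝ := (1 - l0) - 2 / 1000 * (1 + u0) -
    1001 / 1000 * ∑ j ∈ s, c j * (gm j * (1 + w j)) with hPd
  have hP0 : 0 < P := by
    have e : 1001 / 1000 * lam *
      ∑ j ∈ s, gm j * (1 - (j : ℝ) / (J₀ * u)) * (1 + w j) =
      1001 / 1000 * ∑ j ∈ s, c j * (gm j * (1 + w j)) := by
      rw [mul_assoc, Finset.mul_sum, Finset.mul_sum, Finset.mul_sum]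
      refine Finset.sum_congr rfl fun j _ => ?_
      rw [hc]
      ring
    rw [e] at hpos
    exact hpos
  obtain ⟨ε, hε0, hε⟩ := eps_ex s c (fun j => gm j) w l0 u0 P hP0 hPd
  obtain ⟨ηm, hηm0, tm⟩ := tm ε hε0
  obtain ⟨ηp, hηp0, tp⟩ := tp ε hε0
  have tj' : ∀ j ∈ s, ∃ η : ℝ, 0 < η ∧ ∀ᶠ a : ℕ in atTop, ∀ g : ℕ → ℝ,
      AD 1 a ω η j0 (z₀ * u) g → mg a g (Lj j a) ≤ (1 + w j + ε) * Vq a ω g j0 (z₀ * u) :=
    fun j hj => tj j hj ε hε0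
  choose! ηj hηj0 tj' using tj'
  have hηex : ∃ η : ℝ, 0 < η ∧ η ≤ 1 / 2 ∧ η ≤ ε ∧ η ≤ ηm ∧ η ≤ ηp ∧ ∀ j ∈ s, η ≤ ηj j := by
    have h1 : ∀ᶠ η : ℝ in 𝓝[>] 0, ∀ j ∈ s, η ≤ ηj j := by
      rw [Filter.eventually_all_finset]
      intro j hj
      exact (eventually_le_nhds (hηj0 j hj)).filter_mono nhdsWithin_le_nhds
    have h2 : ∀ x : ℝ, 0 < x → ∀ᶠ η : ℝ in 𝓝[>] 0, η ≤ x := fun x hx =>
      (eventually_le_nhds hx).filter_mono nhdsWithin_le_nhds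
    have h0 : ∀ᶠ η : ℝ in 𝓝[>] 0, η ∈ Set.Ioi (0 : ℝ) := self_mem_nhdsWithin
    obtain ⟨η, a1, a2, a3, a4, a5, a6⟩ := (h0.and ((h2 (1 / 2) (by norm_num)).and
      ((h2 ε hε0).and ((h2 ηm hηm0).and ((h2 ηp hηp0).and h1))))).exists
    exact ⟨η, a1, a2, a3, a4, a5, a6⟩
  obtain ⟨η, hη0, hη2, hηε, hηm, hηp, hηj⟩ := hηex
  set cW : ℝ := (2 / 5 : ℝ) ^ (Ico j0 (z₀ * u)).card with hcW
  have hcW0 : 0 < cW := by positivity
  set c1 : ℝ := c0 * cW * P * JJ w₀ / 64 with hc1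
  have hc10 : 0 < c1 := by positivity
  refine ⟨η, c1, hη0, hc10, ?_⟩
  set Es : ℝ := Bm + 2 * Bp + ∑ i ∈ s, c i * Bj i with hEs
  have hEs0 : 0 ≤ Es := by
    have h1 : 0 ≤ ∑ i ∈ s, c i * Bj i :=
      Finset.sum_nonneg fun i hi => mul_nonneg (hcn i hi) (hBj i hi)
    positivity
  have hwj : ∀ᶠ a : ℕ in atTop, ∀ j ∈ s, SW a ω j0 (z₀ * u) (((Lv * u - (j + 1) : ℕ) : ℝ) * ω)
      (Bj j) (Lj j a) := by
    rw [Filter.eventually_all_finset]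
    exact fun j hj => wj j hj
  have hdj : ∀ᶠ a : ℕ in atTop, ∀ j ∈ s, ∀ m : ℕ, 1 ≤ m → idq a ω j0 (z₀ * u) m ≤
      ∑ q ∈ m.divisors, Lj j a q := by
    rw [Filter.eventually_all_finset]
    exact fun j hj => dj j hj
  have htj : ∀ᶠ a : ℕ in atTop, ∀ j ∈ s, ∀ g : ℕ → ℝ,
      AD 1 a ω (ηj j) j0 (z₀ * u) g → mg a g (Lj j a) ≤ (1 + w j + ε) * Vq a ω g j0 (z₀ * u) := by
    rw [Filter.eventually_all_finset]
    exact fun j hj => tj' j hj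
  have hxl : ∀ᶠ a : ℕ in atTop, x₀ ≤ (a : ℝ) ^ (999 / 1000 : ℝ) :=
    ((tendsto_rpow_atTop (by norm_num : (0 : ℝ) < 999 / 1000)).comp
      tendsto_natCast_atTop_atTop).eventually_ge_atTop x₀
  obtain ⟨a₀, ha₀⟩ := eventually_atTop.mp (((wm.and wp).and (hwj.and (dm.and dp))).and
    (((hdj.and tm).and (tp.and htj)).and ((growth Es c1 hEs0 hc10).and
      (hxl.and (eventually_ge_atTop (max aL 120))))))
  refine ⟨a₀, fun a n cc b x haa hcop hb30 hbc hxl hxu hGN => ?_⟩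
  obtain ⟨⟨⟨wm', wp'⟩, wj', dm', dp'⟩, ⟨⟨dj', tm'⟩, tp', tj''⟩, hgr, hxa, hamax⟩ := ha₀ a haa
  have haL : aL ≤ a := (le_max_left _ _).trans hamax
  have ha120 : 120 ≤ a := (le_max_right _ _).trans hamax
  have hAD : AD 1 a ω η j0 (z₀ * u) (gd n cc) := by
    refine ⟨fun p => gd_nonneg n cc p, fun i hi => ?_⟩
    have h1 : i ∈ Ico j0 (J₀ * u) := by
      rw [Finset.mem_Ico] at hi ⊢
      exact ⟨hi.1, hi.2.trans_le (Nat.mul_le_mul_right _ hzJ)⟩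
    have h2 := hGN i h1
    simpa using h2
  have hGb : ∀ i ∈ s, Gb a ω (gd n cc) i ≤ gm i + η := by
    intro i hi
    refine hGN i ?_
    rw [hs, Finset.mem_Ico] at hi
    rw [Finset.mem_Ico]
    exact ⟨hj0z.trans hi.1, hi.2⟩
  have ha0 : (0 : ℝ) < a := by
    have : 0 < a := by omega
    exact_mod_cast this
  have hlog : 0 < Real.log a := Real.log_pos (by
    have : 1 < a := by omega
    exact_mod_cast this)
  have hx0 : 0 < x := lt_of_lt_of_le (by positivity) hxl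
  obtain ⟨hth, T1, T2, T3, T4⟩ := h8 a n cc θ hcop (by omega) hθ0
  set V : ℝ := ∏ p ∈ Qs a θ, (1 - gd n cc p) with hVd
  have hVa := (hV a n cc θ hcop (by omega) hθ0 hθ1).1
  rw [← hVd] at hVa
  have hV0 : 0 ≤ V := le_trans (by positivity) hVa
  obtain ⟨W, hWd⟩ : ∃ W : ℝ, W = Vq a ω (gd n cc) j0 (z₀ * u) := ⟨_, rfl⟩
  have hW1 : cW ≤ W := by
    rw [hWd]
    exact Vq_ge 1 a j0 (z₀ * u) ω η (gd n cc) (by norm_num) hj50 hη2 hAD
  have hW0 : 0 ≤ W := hcW0.le.trans hW1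
  have lm := tm' (gd n cc) (AD_mono _ _ _ _ _ _ _ _ hAD hηm)
  have lp := tp' (gd n cc) (AD_mono _ _ _ _ _ _ _ _ hAD hηp)
  have li : ∀ i ∈ s, mg a (gd n cc) (Lj i a) ≤ (1 + w i + ε) * W := fun i hi => by
    rw [hWd]
    exact tj'' i hi (gd n cc) (AD_mono _ _ _ _ _ _ _ _ hAD (hηj i hi))
  rw [← hWd] at lm lp
  have hG0 : ∀ i ∈ s, 0 ≤ Gb a ω (gd n cc) i := fun i _ => Finset.sum_nonneg fun p _ => hAD.1 p
  have hGk : ∀ i ∈ s, Gb a ω (gd n cc) i ≤ gm i + ε := fun i hi =>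
    (hGb i hi).trans (by linarith)
  have hk0 : ∀ i ∈ s, 0 ≤ gm i := by
    intro i hi
    have h1 : z₀ * u ≤ i := (Finset.mem_Ico.mp hi).1
    have h2 : 1 ≤ z₀ * u := Nat.mul_pos hz₀ hu
    exact gm_nonneg i (by omega)
  have hl : 0 ≤ 1 - l0 - ε := by
    have h1 : 0 ≤ ∑ j ∈ s, c j * ((gm j + ε) * (1 + w j + ε)) :=
      Finset.sum_nonneg fun i hi => mul_nonneg (hcn i hi) (mul_nonneg
        (by have := hk0 i hi; linarith) (by have := hw i; linarith))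
    have h2 : 0 ≤ 2 / 1000 * (1 + u0 + ε) := by positivity
    linarith
  have main := main_ineq V W _ _ l0 u0 P ε _ _ s c (fun j => gm j) w
    (fun i => Gb a ω (gd n cc) i) (fun i => mg a (gd n cc) (Lj i a)) hV0 hW0 T1 T2 T3 T4 hl
    (by linarith) hcn hG0 hGk (fun i _ => by have := hw i; linarith) hε lm lp li
  -- the level of distribution
  have hlv0 : 0 ≤ ((Lv * u : ℕ) : ℝ) * ω := by positivity
  have hlv1 : ((Lv * u : ℕ) : ℝ) * ω ≤ 48 / 100 := by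
    rw [hlev]
    linarith
  have em := hTC 0 a n cc b j0 (z₀ * u) x ω _ Bm (Lm a) haL hcop hb30 hbc hxl hxu hω le_rfl hBm
    hlv0 hlv1 wm'
  have ep0 := hTC 0 a n cc b j0 (z₀ * u) x ω _ Bp (Lp a) haL hcop hb30 hbc hxl hxu hω le_rfl hBp
    hlv0 hlv1 wp'
  have ep1 := hTC 1 a n cc b j0 (z₀ * u) x ω _ Bp (Lp a) haL hcop hb30 hbc hxl hxu hω le_rfl hBp
    hlv0 hlv1 wp'
  have hBM : ∀ i ∈ s, SW a ω j0 (i + 1) (Lv / 100) (Bj i) (bmq a ω i (Lj i a)) ∧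
      mg a (gd n cc) (bmq a ω i (Lj i a)) = Gb a ω (gd n cc) i * mg a (gd n cc) (Lj i a) ∧
      ∀ m : ℕ, 1 ≤ m → ∑ q ∈ m.divisors, bmq a ω i (Lj i a) q =
        (ejq a ω i m : ℝ) * ∑ q ∈ m.divisors, Lj i a q := by
    intro i hi
    have h1 := hB a j0 (z₀ * u) i ω _ (Bj i) (Lj i a) (gd n cc) (by omega) hω (hBj i hi)
      (mul_nonneg (Nat.cast_nonneg (Lv * u - (i + 1))) hω.le) hj0z (Finset.mem_Ico.mp hi).1
      (by rw [hlevj i hi]; linarith) (wj' i hi)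
    rw [hlevj i hi] at h1
    exact h1
  have eD : ∀ i ∈ s, |∑ q ∈ PB x b, wq w₀ x q * (tq 0 a θ f n cc q *
      ∑ m ∈ (vv n cc q).divisors, bmq a ω i (Lj i a) m) -
      Th w₀ x / 8 * Tm 0 a θ f n cc * (Gb a ω (gd n cc) i * mg a (gd n cc) (Lj i a))| ≤
      Bj i * (x / Real.log x ^ 4) := by
    intro i hi
    obtain ⟨b1, b2, -⟩ := hBM i hi
    rw [← b2]
    exact hTC 0 a n cc b j0 (i + 1) x ω _ (Bj i) _ haL hcop hb30 hbc hxl hxu hω le_rfl (hBj i hi)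
      (by positivity) (by linarith) b1
  -- the pointwise inequality
  have hwq : ∀ q : ℕ, 0 ≤ wq w₀ x q := fun q => mul_nonneg vonMangoldt_nonneg (hw₀.nonneg _)
  have hpt : ∀ q ∈ PB x b,
      wq w₀ x q * (tq 0 a θ f n cc q * ∑ m ∈ (vv n cc q).divisors, Lm a m) +
        wq w₀ x q * (tq 1 a θ f n cc q * ∑ m ∈ (vv n cc q).divisors, Lp a m) -
        wq w₀ x q * (tq 0 a θ f n cc q * ∑ m ∈ (vv n cc q).divisors, Lp a m) -
        ∑ i ∈ s, c i * (wq w₀ x q * (tq 0 a θ f n cc q *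
          ∑ m ∈ (vv n cc q).divisors, bmq a ω i (Lj i a) m)) ≤
      wq w₀ x q * (q0 a θ n cc q * idq a ω j0 (z₀ * u) (vv n cc q) *
        (1 - ∑ i ∈ s, lam * (1 - (i : ℝ) / (J₀ * u)) * (ejq a ω i (vv n cc q) : ℝ))) := by
    intro q _
    have hv := vv_pos n cc q hcop
    have hi0 : 0 ≤ idq a ω j0 (z₀ * u) (vv n cc q) ∧
        idq a ω j0 (z₀ * u) (vv n cc q) ≤ 1 := by
      unfold idq; split_ifs <;> norm_num
    have hq : 0 ≤ q0 a θ n cc q ∧ q0 a θ n cc q ≤ 1 := by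
      unfold q0; split_ifs <;> norm_num
    have key := h9 (q0 a θ n cc q) (idq a ω j0 (z₀ * u) (vv n cc q))
      (tq 0 a θ f n cc q) (tq 1 a θ f n cc q)
      (∑ m ∈ (vv n cc q).divisors, Lp a m) (∑ m ∈ (vv n cc q).divisors, Lm a m)
      s (fun i => (ejq a ω i (vv n cc q) : ℝ))
      (fun i => ∑ m ∈ (vv n cc q).divisors, bmq a ω i (Lj i a) m) c
      hq.1 hq.2 hi0.1 hi0.2 (hth q).1 (hth q).2 (dm' _ hv) (dp' _ hv)
      (fun i hi => ⟨hcn i hi, Nat.cast_nonneg _⟩) (fun i hi => by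
        rw [(hBM i hi).2.2 _ hv, mul_comm]
        exact mul_le_mul_of_nonneg_left (dj' i hi _ hv) (Nat.cast_nonneg _))
    have key2 := mul_le_mul_of_nonneg_left key (hwq q)
    refine le_trans (le_of_eq ?_) key2
    have e1 : ∑ i ∈ s, c i * (wq w₀ x q * (tq 0 a θ f n cc q *
        ∑ m ∈ (vv n cc q).divisors, bmq a ω i (Lj i a) m)) =
        wq w₀ x q * ∑ i ∈ s, c i * (tq 0 a θ f n cc q *
          ∑ m ∈ (vv n cc q).divisors, bmq a ω i (Lj i a) m) := by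
      rw [Finset.mul_sum]
      refine Finset.sum_congr rfl fun i _ => ?_
      ring
    rw [e1, mul_sub, mul_sub, mul_add]
  refine le_trans ?_ (Finset.sum_le_sum hpt)
  rw [Finset.sum_sub_distrib, Finset.sum_sub_distrib, Finset.sum_add_distrib, Finset.sum_comm]
  simp only [← Finset.mul_sum]
  refine le_trans ?_ (combine (Th w₀ x / 8) (Tm 0 a θ f n cc) (Tm 1 a θ f n cc)
    (mg a (gd n cc) (Lm a)) (mg a (gd n cc) (Lp a)) _ _ _ (x / Real.log x ^ 4) Bm Bp s c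
    (fun i => ∑ q ∈ PB x b, wq w₀ x q * (tq 0 a θ f n cc q *
      ∑ m ∈ (vv n cc q).divisors, bmq a ω i (Lj i a) m))
    (fun i => Gb a ω (gd n cc) i * mg a (gd n cc) (Lj i a)) Bj hcn em ep1 ep0 eD)
  rw [← hEs]
  have hTh : JJ w₀ / 2 * x ≤ Th w₀ x := by
    have h1 := (abs_le.mp (hx₀ x (hxa.trans hxl))).1
    linarith
  have hTh0 : 0 ≤ Th w₀ x := le_trans (by positivity) hTh
  have main2 := mul_le_mul_of_nonneg_left main (show 0 ≤ Th w₀ x / 8 by positivity)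
  have main3 : 2 * (c1 * x / Real.log a ^ 3) ≤ Th w₀ x / 8 * (V * W * (P / 2)) := by
    calc 2 * (c1 * x / Real.log a ^ 3) =
          JJ w₀ / 2 * x / 8 * (c0 / Real.log a ^ 3 * cW * (P / 2)) := by
          rw [hc1]; ring
      _ ≤ Th w₀ x / 8 * (V * W * (P / 2)) := by gcongr
  have hgr' := hgr x hxl hxu
  linarith

end Pool.Agent.Helper92.EL
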